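import Mathlib

set_option autoImplicit false

namespace Pool.Agent.Results.MP_c39918_co.RealEhrhartDetermines

open Set Filter Topology
open scoped Pointwise

/-- Euclidean space of dimension `d`. -/
abbrev E (d : ℕ) := EuclideanSpace ℝ (Fin d)

/-- The integer vector `z`, seen in Euclidean space. -/
noncomputable def intVec {d : ℕ} (z : Fin d → ℤ) : E d := WithLp.toLp 2 (fun i => (z i : ℝ))

/-- The real Ehrhart function: the number of integer points in `s K`. -/
noncomputable def ehrhart {d : ℕ} (K : Set (E d)) (s : ℝ) : ℕ :=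
  {z : Fin d → ℤ | intVec z ∈ s • K}.ncard

/-- The translate `K + w`. -/
def translate {d : ℕ} (K : Set (E d)) (w : Fin d → ℤ) : Set (E d) := (fun x => x + intVec w) '' K

lemma intVec_apply {d : ℕ} (z : Fin d → ℤ) (i : Fin d) : intVec z i = (z i : ℝ) := rfl

lemma key {d : ℕ} (K : Set (E d)) (R : ℝ) (hK : ∀ x ∈ K, ‖x‖ ≤ R) (a : Fin d → ℤ) (p N : ℕ)
    (hp : 0 < p) (hN : R + ∑ i, |(a i : ℝ)| < N) (z : Fin d → ℤ) :
    intVec z ∈ ((p : ℝ) / (p * N + 1)) • translate K (fun i => N * a i) ↔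
      z = a ∧ (1 / (p : ℝ)) • intVec a ∈ K := by
  have hp' : (0 : ℝ) < p := by exact_mod_cast hp
  have hs : (0 : ℝ) < (p : ℝ) / (p * N + 1) := by positivity
  have hmem : intVec z ∈ ((p : ℝ) / (p * N + 1)) • translate K (fun i => N * a i) ↔
      ((p : ℝ) / (p * N + 1))⁻¹ • intVec z - intVec (fun i => N * a i) ∈ K := by
    rw [Set.mem_smul_set_iff_inv_smul_mem₀ hs.ne']
    unfold translate
    constructor
    · rintro ⟨x, hx, hxz⟩
      rw [← hxz]
      simpa using hx
    · intro h
      exact ⟨_, h, by simp⟩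
  rw [hmem]
  have hcoord : ∀ i, (((p : ℝ) / (p * N + 1))⁻¹ • intVec z - intVec (fun i => N * a i)) i =
      (N + 1 / p) * ((z i : ℝ) - a i) + a i / p := by
    intro i
    simp [intVec_apply]
    field_simp
    ring
  constructor
  · intro h
    have hza : z = a := by
      by_contra hne
      obtain ⟨i, hi⟩ := Function.ne_iff.mp hne
      have h1 := hK _ h
      have h2 := PiLp.norm_apply_le (((p : ℝ) / (p * N + 1))⁻¹ • intVec z -
        intVec (fun i => N * a i)) i
      rw [hcoord, Real.norm_eq_abs] at h2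
      have h3 : (1 : ℝ) ≤ |(z i : ℝ) - a i| := by
        have : (1 : ℤ) ≤ |z i - a i| := Int.one_le_abs (sub_ne_zero.mpr hi)
        exact_mod_cast this
      have h4 : (N : ℝ) ≤ |(N + 1 / p) * ((z i : ℝ) - a i)| := by
        rw [abs_mul, abs_of_pos (by positivity : (0 : ℝ) < N + 1 / p)]
        have : (0 : ℝ) < 1 / p := by positivity
        nlinarith
      have h5 : |(a i : ℝ) / p| ≤ |(a i : ℝ)| := by
        rw [abs_div, abs_of_pos hp']
        apply div_le_self (abs_nonneg _)
        exact_mod_cast hp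
      have h6 : |(a i : ℝ)| ≤ ∑ i, |(a i : ℝ)| :=
        Finset.single_le_sum (f := fun i => |(a i : ℝ)|) (fun _ _ => abs_nonneg _)
          (Finset.mem_univ i)
      have h7 := abs_sub_abs_le_abs_sub ((N + 1 / p) * ((z i : ℝ) - a i)) (-((a i : ℝ) / p))
      rw [sub_neg_eq_add, abs_neg] at h7
      linarith
    refine ⟨hza, ?_⟩
    subst hza
    convert h using 1
    ext i
    rw [hcoord]
    simp [intVec_apply]
    ring
  · rintro ⟨rfl, h⟩
    convert h using 1
    ext i
    rw [hcoord]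
    simp [intVec_apply]
    ring

lemma ehrhart_eq {d : ℕ} (K : Set (E d)) (R : ℝ) (hK : ∀ x ∈ K, ‖x‖ ≤ R) (a : Fin d → ℤ)
    (p N : ℕ) (hp : 0 < p) (hN : R + ∑ i, |(a i : ℝ)| < N) :
    ehrhart (translate K (fun i => N * a i)) ((p : ℝ) / (p * N + 1)) = 1 ↔
      (1 / (p : ℝ)) • intVec a ∈ K := by
  unfold ehrhart
  have h : {z : Fin d → ℤ | intVec z ∈ ((p : ℝ) / (p * N + 1)) • translate K (fun i => N * a i)} =
      {z | z = a ∧ (1 / (p : ℝ)) • intVec a ∈ K} := by
    ext z
    exact key K R hK a p N hp hN z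
  rw [h]
  by_cases hm : (1 / (p : ℝ)) • intVec a ∈ K
  · simp only [hm, and_true, Set.setOf_eq_eq_singleton, Set.ncard_singleton]
  · simp only [hm, and_false, Set.setOf_false, Set.ncard_empty, zero_ne_one]

lemma rational_iff {d : ℕ} (K H : Set (E d)) (hK : IsCompact K) (hH : IsCompact H)
    (h : ∀ s : ℝ, 0 < s → ∀ w : Fin d → ℤ, ehrhart (translate K w) s = ehrhart (translate H w) s)
    (a : Fin d → ℤ) (p : ℕ) (hp : 0 < p) :
    (1 / (p : ℝ)) • intVec a ∈ K ↔ (1 / (p : ℝ)) • intVec a ∈ H := by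
  obtain ⟨R, hR⟩ := (hK.isBounded.union hH.isBounded).exists_norm_le
  obtain ⟨N, hN⟩ := exists_nat_gt (R + ∑ i, |(a i : ℝ)|)
  rw [← ehrhart_eq K R (fun x hx => hR x (Or.inl hx)) a p N hp hN,
    ← ehrhart_eq H R (fun x hx => hR x (Or.inr hx)) a p N hp hN, h _ (by positivity)]

lemma approx {d : ℕ} (y : E d) :
    Tendsto (fun p : ℕ => (1 / (p : ℝ)) • intVec (fun i => round ((p : ℝ) * y i))) atTop (𝓝 y) := by
  have h1 : Tendsto (fun p : ℕ => fun i => (1 / (p : ℝ)) * (round ((p : ℝ) * y i) : ℝ)) atTop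
      (𝓝 (fun i => y i)) := by
    rw [tendsto_pi_nhds]
    intro i
    rw [tendsto_iff_norm_sub_tendsto_zero]
    have h2 : Tendsto (fun p : ℕ => 1 / (p : ℝ)) atTop (𝓝 0) := tendsto_one_div_atTop_nhds_zero_nat
    refine squeeze_zero' (Eventually.of_forall fun _ => norm_nonneg _) ?_ h2
    filter_upwards [eventually_gt_atTop 0] with p hp
    have hp' : (0 : ℝ) < p := by exact_mod_cast hp
    have h3 := abs_sub_round ((p : ℝ) * y i)
    rw [Real.norm_eq_abs]
    have h4 : (1 / (p : ℝ)) * (round ((p : ℝ) * y i) : ℝ) - y i =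
        -((1 / (p : ℝ)) * ((p : ℝ) * y i - round ((p : ℝ) * y i))) := by
      field_simp
      ring
    rw [h4, abs_neg, abs_mul, abs_of_pos (by positivity : 0 < 1 / (p : ℝ))]
    have : 0 < 1 / (p : ℝ) := by positivity
    nlinarith
  have h5 := ((PiLp.continuous_toLp 2 (fun _ : Fin d => ℝ)).tendsto (fun i => y i)).comp h1
  convert h5 using 1
  funext p
  ext i
  simp [intVec_apply]

lemma subset_of {d : ℕ} (K H : Set (E d)) (hK : IsCompact K) (hKc : Convex ℝ K)
    (hKi : (interior K).Nonempty) (hH : IsCompact H)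
    (h : ∀ (a : Fin d → ℤ) (p : ℕ), 0 < p → (1 / (p : ℝ)) • intVec a ∈ K →
      (1 / (p : ℝ)) • intVec a ∈ H) : K ⊆ H := by
  have hint : interior K ⊆ H := by
    intro y hy
    by_contra hyH
    have hU : interior K ∩ Hᶜ ∈ 𝓝 y :=
      (isOpen_interior.inter hH.isClosed.isOpen_compl).mem_nhds ⟨hy, hyH⟩
    have h1 := (approx y).eventually hU
    obtain ⟨p, hp1, hp2⟩ := (h1.and (eventually_gt_atTop 0)).exists
    exact hp1.2 (h _ p hp2 (interior_subset hp1.1))
  have h2 := hKc.closure_interior_eq_closure_of_nonempty_interior hKi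
  rw [hK.isClosed.closure_eq] at h2
  rw [← h2]
  exact closure_minimal hint hH.isClosed

/-- Convex bodies are determined by the real Ehrhart functions of their integer translates. -/
theorem result (d : ℕ) (K H : Set (E d))
    (hK : IsCompact K) (hKc : Convex ℝ K) (hKi : (interior K).Nonempty)
    (hH : IsCompact H) (hHc : Convex ℝ H) (hHi : (interior H).Nonempty)
    (h : ∀ s : ℝ, 0 < s → ∀ w : Fin d → ℤ, ehrhart (translate K w) s = ehrhart (translate H w) s) :
    K = H :=
  subset_antisymm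
    (subset_of K H hK hKc hKi hH fun a p hp => (rational_iff K H hK hH h a p hp).mp)
    (subset_of H K hH hHc hHi hK fun a p hp => (rational_iff K H hK hH h a p hp).mpr)

end Pool.Agent.Results.MP_c39918_co.RealEhrhartDetermines
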